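import Pool.Agent.Helper14.KS.Win

/-!
# Project KS: `Crude1` and `RPart1`
-/

set_option autoImplicit false
open scoped Classical

namespace Pool.Agent.Helper14.KS

open Finset Pool.Agent.Helper16.KS Pool.Agent.Helper18.KL
open Pool.Agent.Helper16.KS.Sys (rough)

theorem n_rpow_le {n k : ℕ} (hn : 2 ^ k ≤ n) {a : ℝ} (ha : a ≤ 0) :
    (n : ℝ) ^ a ≤ (2 : ℝ) ^ (a * k) := by
  have h1 : (2 : ℝ) ^ (k : ℝ) ≤ n := by
    rw [Real.rpow_natCast]; exact_mod_cast hn
  calc (n : ℝ) ^ a ≤ ((2 : ℝ) ^ (k : ℝ)) ^ a :=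
        Real.rpow_le_rpow_of_nonpos (by positivity) h1 ha
    _ = (2 : ℝ) ^ (a * k) := by rw [← Real.rpow_mul (by norm_num)]; congr 1; ring

/-- (RPART1) -/
theorem rpart1 : RPart1 := by
  intro S
  have ht := S.tau_pos
  have hts := S.tau_le_s
  have hs := S.s_lt
  have hs0 := S.s_pos
  obtain ⟨K0, hK6, hK0⟩ := win_main S (S.tau / 40) (by positivity)
  refine ⟨K0, ?_⟩
  intro k0 hk0 k x h hk hx1 hx2 hh hhx A
  have hmain := hK0 k0 hk0 k x h hk hx1 hx2 hh hhx A
  set F := (Ico x (x + h)).filter (fun n => rough k0 n ∧ A ⊆ n.primeFactors) with hF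
  -- pointwise bound
  have hterm : ∀ n ∈ (Ico x (x + h)).filter (rough k0),
      ∑ e ∈ n.divisors.filter (fun e : ℕ => (2 : ℝ) ^ ((k : ℝ) / 8) ≤ (e : ℝ) ∧ A ⊆ e.primeFactors),
        S.base e * ((n / e : ℕ) : ℝ) ^ (S.s - 1) * S.pc A e.primeFactors ≤
      if A ⊆ n.primeFactors then
        (2 : ℝ) ^ ((S.s - 1) * k - S.tau / 8 * k) * ((8 : ℝ) ^ Om n * (sig A n : ℝ) ^ S.hh)
      else 0 := by
    intro n hn
    obtain ⟨hn1, hn2⟩ := mem_filter.mp hn
    have hn3 := mem_Ico.mp hn1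
    have hnk : 2 ^ k ≤ n := hx1.trans hn3.1
    have hn0 : n ≠ 0 := by have := Nat.one_le_two_pow (n := k); omega
    have hnR : (0 : ℝ) < n := by exact_mod_cast Nat.pos_of_ne_zero hn0
    split_ifs with hA
    · have h1 : ∀ e ∈ n.divisors.filter
          (fun e : ℕ => (2 : ℝ) ^ ((k : ℝ) / 8) ≤ (e : ℝ) ∧ A ⊆ e.primeFactors),
          S.base e * ((n / e : ℕ) : ℝ) ^ (S.s - 1) * S.pc A e.primeFactors ≤
          (2 : ℝ) ^ ((S.s - 1) * k - S.tau / 8 * k) * (sig A n : ℝ) ^ S.hh := by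
        intro e he
        obtain ⟨he1, he2, he3⟩ := mem_filter.mp he
        have hed := (Nat.mem_divisors.mp he1).1
        have he0 : e ≠ 0 := by rintro rfl; exact hn0 (Nat.eq_zero_of_zero_dvd hed)
        have heR : (0 : ℝ) < e := by exact_mod_cast Nat.pos_of_ne_zero he0
        have hradR : (0 : ℝ) < Pool.Agent.Helper48.KS.radg A e := by
          exact_mod_cast Pool.Agent.Helper48.KS.radg_pos A e
        have e1 : S.pc A e.primeFactors =
            (Pool.Agent.Helper48.KS.radg A e : ℝ) ^ (-S.hh) := by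
          unfold Sys.pc Sys.pr Pool.Agent.Helper48.KS.radg
          push_cast
          rw [← Real.finsetProd_rpow _ _ fun p _ => Nat.cast_nonneg p]
        have e2 : ((n / e : ℕ) : ℝ) = (n : ℝ) / e := Nat.cast_div hed heR.ne'
        have hsig : (sig A e : ℝ) = (e : ℝ) / Pool.Agent.Helper48.KS.radg A e := sig_eq A he0
        have e3 : (Pool.Agent.Helper48.KS.radg A e : ℝ) ^ (-S.hh) =
            (sig A e : ℝ) ^ S.hh * (e : ℝ) ^ (-S.hh) := by
          rw [hsig, Real.div_rpow heR.le hradR.le, Real.rpow_neg hradR.le, Real.rpow_neg heR.le]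
          have : (e : ℝ) ^ S.hh ≠ 0 := (Real.rpow_pos_of_pos heR _).ne'
          field_simp
        have e4 : S.base e * ((n / e : ℕ) : ℝ) ^ (S.s - 1) * S.pc A e.primeFactors =
            (n : ℝ) ^ (S.s - 1) * (e : ℝ) ^ (-S.tau) * (sig A e : ℝ) ^ S.hh := by
          rw [e1, e2, e3, Real.div_rpow hnR.le heR.le]
          unfold Sys.base
          have e5 : (e : ℝ) ^ (-S.tau) * (e : ℝ) ^ (S.s - 1) =
              (e : ℝ) ^ (-(1 / 2 + S.del)) * (e : ℝ) ^ (-S.hh) := by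
            rw [← Real.rpow_add heR, ← Real.rpow_add heR]
            congr 1
            rw [S.hh_eq]; ring
          have e6 : (e : ℝ) ^ (S.s - 1) ≠ 0 := (Real.rpow_pos_of_pos heR _).ne'
          calc (e : ℝ) ^ (-(1 / 2 + S.del)) * ((n : ℝ) ^ (S.s - 1) / (e : ℝ) ^ (S.s - 1)) *
                ((sig A e : ℝ) ^ S.hh * (e : ℝ) ^ (-S.hh))
              = (n : ℝ) ^ (S.s - 1) * (sig A e : ℝ) ^ S.hh *
                  ((e : ℝ) ^ (-(1 / 2 + S.del)) * (e : ℝ) ^ (-S.hh)) / (e : ℝ) ^ (S.s - 1) := by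
                ring
            _ = (n : ℝ) ^ (S.s - 1) * (sig A e : ℝ) ^ S.hh *
                  ((e : ℝ) ^ (-S.tau) * (e : ℝ) ^ (S.s - 1)) / (e : ℝ) ^ (S.s - 1) := by rw [e5]
            _ = _ := by field_simp
        rw [e4]
        have h2 : (n : ℝ) ^ (S.s - 1) ≤ (2 : ℝ) ^ ((S.s - 1) * k) := n_rpow_le hnk (by linarith)
        have h3 : (e : ℝ) ^ (-S.tau) ≤ (2 : ℝ) ^ (-(S.tau / 8 * k)) := by
          calc (e : ℝ) ^ (-S.tau) ≤ ((2 : ℝ) ^ ((k : ℝ) / 8)) ^ (-S.tau) :=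
                Real.rpow_le_rpow_of_nonpos (by positivity) he2 (by linarith)
            _ = _ := by rw [← Real.rpow_mul (by norm_num)]; congr 1; ring
        have h4 : (sig A e : ℝ) ^ S.hh ≤ (sig A n : ℝ) ^ S.hh := by
          refine Real.rpow_le_rpow (Nat.cast_nonneg _) ?_ (by have := S.hh_ge; linarith)
          exact_mod_cast sig_le_of_dvd A hn0 hed
        have e7 : (2 : ℝ) ^ ((S.s - 1) * k - S.tau / 8 * k) =
            (2 : ℝ) ^ ((S.s - 1) * k) * (2 : ℝ) ^ (-(S.tau / 8 * k)) := by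
          rw [← Real.rpow_add (by norm_num)]; congr 1
        rw [e7]
        exact mul_le_mul (mul_le_mul h2 h3 (by positivity) (by positivity)) h4 (by positivity)
          (by positivity)
      refine (sum_le_sum h1).trans ?_
      rw [sum_const, nsmul_eq_mul]
      have h5 : (((n.divisors.filter
          (fun e : ℕ => (2 : ℝ) ^ ((k : ℝ) / 8) ≤ (e : ℝ) ∧ A ⊆ e.primeFactors)).card : ℕ) : ℝ) ≤
          (8 : ℝ) ^ Om n := by
        calc _ ≤ ((n.divisors.card : ℕ) : ℝ) := by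
              exact_mod_cast card_le_card (filter_subset _ _)
          _ ≤ ((2 ^ Om n : ℕ) : ℝ) := by exact_mod_cast card_divisors_le hn0
          _ ≤ (8 : ℝ) ^ Om n := by
              push_cast; exact pow_le_pow_left₀ (by norm_num) (by norm_num) _
      calc _ ≤ (8 : ℝ) ^ Om n * ((2 : ℝ) ^ ((S.s - 1) * k - S.tau / 8 * k) *
            (sig A n : ℝ) ^ S.hh) := mul_le_mul_of_nonneg_right h5 (by positivity)
        _ = _ := by ring
    · refine le_of_eq (sum_eq_zero fun e he => ?_)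
      exfalso
      obtain ⟨he1, he2, he3⟩ := mem_filter.mp he
      exact hA (he3.trans (Nat.primeFactors_mono (Nat.mem_divisors.mp he1).1 hn0))
  refine (sum_le_sum hterm).trans ?_
  rw [← sum_filter, filter_filter, ← mul_sum]
  calc (2 : ℝ) ^ ((S.s - 1) * k - S.tau / 8 * k) * ∑ n ∈ F, (8 : ℝ) ^ Om n * (sig A n : ℝ) ^ S.hh
      ≤ (2 : ℝ) ^ ((S.s - 1) * k - S.tau / 8 * k) * (h * (2 : ℝ) ^ (S.tau / 40 * k)) :=
        mul_le_mul_of_nonneg_left hmain (by positivity)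
    _ = h * ((2 : ℝ) ^ ((S.s - 1) * k - S.tau / 8 * k) * (2 : ℝ) ^ (S.tau / 40 * k)) := by ring
    _ = h * (2 : ℝ) ^ ((S.s - 1 - S.tau / 10) * k) := by
        rw [← Real.rpow_add (by norm_num)]; congr 2; ring

/-- factorwise bound for `Fe D n * pc A D` -/
theorem Fe_pc_le (S : Sys) (A D : Finset ℕ) {n : ℕ} (hn : n ≠ 0) (hAD : A ⊆ D)
    (hD : D ⊆ n.primeFactors) :
    S.Fe D n * S.pc A D ≤
      (2 : ℝ) ^ Om n * (n : ℝ) ^ (S.s - 1 + 6 * S.tau) * (sig A n : ℝ) ^ S.hh := by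
  have ht := S.tau_pos
  have hhh := S.hh_eq
  have hhg := S.hh_ge
  have hdel := S.del_pos
  have hdl := S.del_le
  have hs := S.s_lt
  have hs0 := S.s_pos
  have hts := S.tau_le_s
  have e1 : S.pc A D = ∏ p ∈ n.primeFactors, if p ∈ D \ A then S.pr p else 1 := by
    unfold Sys.pc
    rw [prod_ite_mem]
    congr 1
    ext p
    simp only [mem_inter, mem_sdiff]
    constructor
    · rintro ⟨h1, h2⟩; exact ⟨hD h1, h1, h2⟩
    · rintro ⟨_, h1, h2⟩; exact ⟨h1, h2⟩
  have e2 : (2 : ℝ) ^ Om n * (n : ℝ) ^ (S.s - 1 + 6 * S.tau) * (sig A n : ℝ) ^ S.hh =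
      ∏ p ∈ n.primeFactors, ((2 : ℝ) ^ n.factorization p *
        ((p : ℝ) ^ n.factorization p) ^ (S.s - 1 + 6 * S.tau) *
        ((if p ∈ A then (p : ℝ) ^ n.factorization p
          else (p : ℝ) ^ (n.factorization p - 1)) ^ S.hh)) := by
    rw [prod_mul_distrib, prod_mul_distrib, prod_pow_eq_pow_sum, sum_factorization,
      Real.finsetProd_rpow _ _ fun p _ => by positivity,
      Real.finsetProd_rpow _ _ fun p _ => by split_ifs <;> positivity]
    congr 2
    · congr 1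
      have h1 := Nat.prod_factorization_pow_eq_self hn
      rw [Nat.prod_factorization_eq_prod_primeFactors] at h1
      conv_lhs => rw [← h1]
      push_cast; rfl
    · unfold sig
      push_cast
      rfl
  rw [e1, e2]
  unfold Sys.Fe
  rw [← prod_mul_distrib]
  refine prod_le_prod (fun p hp => ?_) fun p hp => ?_
  · refine mul_nonneg ?_ ?_
    · split_ifs
      · exact pow_nonneg (add_nonneg (S.base_nonneg _) (S.gam_nonneg _)) _
      · exact pow_nonneg (S.gam_nonneg _) _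
    · split_ifs
      · exact S.pr_nonneg _
      · exact zero_le_one
  have hpp := Nat.prime_of_mem_primeFactors hp
  have hp1 : (1 : ℝ) ≤ p := by exact_mod_cast hpp.one_lt.le
  have hp0 : (0 : ℝ) < p := by linarith
  set v := n.factorization p with hv
  have hv1 : 1 ≤ v := hpp.factorization_pos_of_dvd hn (Nat.dvd_of_mem_primeFactors hp)
  have hv1' : (1 : ℝ) ≤ v := by exact_mod_cast hv1
  have hcast : ((v - 1 : ℕ) : ℝ) = (v : ℝ) - 1 := by push_cast [Nat.cast_sub hv1]; ring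
  -- `base + gam ≤ 2 base`
  have hbg : (S.base p + S.gam p) ^ v ≤ (2 : ℝ) ^ v * (p : ℝ) ^ (-(1 / 2 + S.del) * v) := by
    have h1 : S.gam p ≤ S.base p := by
      unfold Sys.gam Sys.base
      refine Real.rpow_le_rpow_of_exponent_le hp1 ?_
      linarith
    have h2 : S.base p + S.gam p ≤ 2 * S.base p := by linarith
    calc (S.base p + S.gam p) ^ v ≤ (2 * S.base p) ^ v :=
          pow_le_pow_left₀ (add_nonneg (S.base_nonneg _) (S.gam_nonneg _)) h2 v
      _ = (2 : ℝ) ^ v * (p : ℝ) ^ (-(1 / 2 + S.del) * v) := by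
          rw [mul_pow]
          congr 1
          unfold Sys.base
          rw [← Real.rpow_natCast, ← Real.rpow_mul hp0.le]
  have hpow : ((p : ℝ) ^ v) ^ (S.s - 1 + 6 * S.tau) = (p : ℝ) ^ ((S.s - 1 + 6 * S.tau) * v) := by
    rw [← Real.rpow_natCast, ← Real.rpow_mul hp0.le]; congr 1; ring
  have hpv : ((p : ℝ) ^ v) ^ S.hh = (p : ℝ) ^ (S.hh * v) := by
    rw [← Real.rpow_natCast, ← Real.rpow_mul hp0.le]; congr 1; ring
  have hpv1 : ((p : ℝ) ^ (v - 1)) ^ S.hh = (p : ℝ) ^ (S.hh * (v - 1)) := by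
    rw [← Real.rpow_natCast, ← Real.rpow_mul hp0.le, hcast]; congr 1; ring
  have h2v : (0 : ℝ) < (2 : ℝ) ^ v := by positivity
  by_cases hpA : p ∈ A
  · have hpD := hAD hpA
    rw [if_pos hpD, if_neg (by simp [hpA]), if_pos hpA, mul_one, hpow, hpv]
    refine hbg.trans ?_
    rw [mul_assoc]
    refine mul_le_mul_of_nonneg_left ?_ h2v.le
    rw [← Real.rpow_add hp0]
    refine Real.rpow_le_rpow_of_exponent_le hp1 ?_
    rw [hhh]; nlinarith
  · by_cases hpD : p ∈ D
    · rw [if_pos hpD, if_pos (by simp [hpA, hpD]), if_neg hpA, hpow, hpv1]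
      have h3 : (S.base p + S.gam p) ^ v * S.pr p ≤
          ((2 : ℝ) ^ v * (p : ℝ) ^ (-(1 / 2 + S.del) * v)) * (p : ℝ) ^ (-S.hh) :=
        mul_le_mul_of_nonneg_right hbg (S.pr_nonneg _)
      refine h3.trans ?_
      rw [mul_assoc, mul_assoc]
      refine mul_le_mul_of_nonneg_left ?_ h2v.le
      rw [← Real.rpow_add hp0, ← Real.rpow_add hp0]
      refine Real.rpow_le_rpow_of_exponent_le hp1 ?_
      rw [hhh]; nlinarith
    · rw [if_neg hpD, if_neg (by simp [hpD]), if_neg hpA, mul_one, hpow, hpv1]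
      have h3 : S.gam p ^ v = (p : ℝ) ^ ((S.s - 1 + 6 * S.tau) * v) := by
        unfold Sys.gam
        rw [← Real.rpow_natCast, ← Real.rpow_mul hp0.le]
      rw [h3]
      have h4 : 1 ≤ (2 : ℝ) ^ v := one_le_pow₀ (by norm_num)
      have h5 : 1 ≤ (p : ℝ) ^ (S.hh * (v - 1)) :=
        Real.one_le_rpow hp1 (mul_nonneg (by linarith) (by linarith))
      have h6 : 0 ≤ (p : ℝ) ^ ((S.s - 1 + 6 * S.tau) * v) := by positivity
      calc (p : ℝ) ^ ((S.s - 1 + 6 * S.tau) * v)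
          = 1 * (p : ℝ) ^ ((S.s - 1 + 6 * S.tau) * v) * 1 := by ring
        _ ≤ (2 : ℝ) ^ v * (p : ℝ) ^ ((S.s - 1 + 6 * S.tau) * v) * (p : ℝ) ^ (S.hh * (v - 1)) :=
            mul_le_mul (mul_le_mul_of_nonneg_right h4 h6) h5 zero_le_one (by positivity)

/-- (CRUDE1) -/
theorem crude1 : Crude1 := by
  intro S
  have ht := S.tau_pos
  have hts := S.tau_le_s
  have hs := S.s_lt
  obtain ⟨K0, hK6, hK0⟩ := win_main S (S.tau / 2) (by positivity)
  refine ⟨K0, ?_⟩
  intro k0 hk0 k x h hk hx1 hx2 hh hhx A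
  have hmain := hK0 k0 hk0 k x h hk hx1 hx2 hh hhx A
  set F := (Ico x (x + h)).filter (fun n => rough k0 n ∧ A ⊆ n.primeFactors) with hF
  unfold Sys.CP
  have hterm : ∀ n ∈ (Ico x (x + h)).filter (rough k0),
      ∑ D ∈ n.primeFactors.powerset.filter (fun D => A ⊆ D), S.Fe D n * S.pc A D ≤
      if A ⊆ n.primeFactors then
        (2 : ℝ) ^ ((S.s - 1 + 6 * S.tau) * k) * ((8 : ℝ) ^ Om n * (sig A n : ℝ) ^ S.hh)
      else 0 := by
    intro n hn
    obtain ⟨hn1, hn2⟩ := mem_filter.mp hn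
    have hn3 := mem_Ico.mp hn1
    have hnk : 2 ^ k ≤ n := hx1.trans hn3.1
    have hn0 : n ≠ 0 := by have := Nat.one_le_two_pow (n := k); omega
    split_ifs with hA
    · have h1 : ∀ D ∈ n.primeFactors.powerset.filter (fun D => A ⊆ D), S.Fe D n * S.pc A D ≤
          (2 : ℝ) ^ Om n * (2 : ℝ) ^ ((S.s - 1 + 6 * S.tau) * k) * (sig A n : ℝ) ^ S.hh := by
        intro D hD
        obtain ⟨hD1, hD2⟩ := mem_filter.mp hD
        refine (Fe_pc_le S A D hn0 hD2 (mem_powerset.mp hD1)).trans ?_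
        refine mul_le_mul_of_nonneg_right ?_ (by positivity)
        refine mul_le_mul_of_nonneg_left ?_ (by positivity)
        exact n_rpow_le hnk (by linarith)
      refine (sum_le_sum h1).trans ?_
      rw [sum_const, nsmul_eq_mul]
      have h5 : (((n.primeFactors.powerset.filter (fun D => A ⊆ D)).card : ℕ) : ℝ) ≤
          (2 : ℝ) ^ Om n := by
        calc _ ≤ ((n.primeFactors.powerset.card : ℕ) : ℝ) := by
              exact_mod_cast card_le_card (filter_subset _ _)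
          _ = ((2 ^ n.primeFactors.card : ℕ) : ℝ) := by rw [card_powerset]
          _ ≤ (2 : ℝ) ^ Om n := by
              push_cast
              exact pow_le_pow_right₀ (by norm_num) card_primeFactors_le
      calc _ ≤ (2 : ℝ) ^ Om n * ((2 : ℝ) ^ Om n * (2 : ℝ) ^ ((S.s - 1 + 6 * S.tau) * k) *
            (sig A n : ℝ) ^ S.hh) := mul_le_mul_of_nonneg_right h5 (by positivity)
        _ = (2 : ℝ) ^ ((S.s - 1 + 6 * S.tau) * k) * (((2 : ℝ) ^ Om n * (2 : ℝ) ^ Om n) *
            (sig A n : ℝ) ^ S.hh) := by ring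
        _ ≤ _ := by
            refine mul_le_mul_of_nonneg_left ?_ (by positivity)
            refine mul_le_mul_of_nonneg_right ?_ (by positivity)
            rw [← mul_pow]
            exact pow_le_pow_left₀ (by norm_num) (by norm_num) _
    · refine le_of_eq (sum_eq_zero fun D hD => ?_)
      exfalso
      obtain ⟨hD1, hD2⟩ := mem_filter.mp hD
      exact hA (hD2.trans (mem_powerset.mp hD1))
  refine (sum_le_sum hterm).trans ?_
  rw [← sum_filter, filter_filter, ← mul_sum]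
  calc (2 : ℝ) ^ ((S.s - 1 + 6 * S.tau) * k) * ∑ n ∈ F, (8 : ℝ) ^ Om n * (sig A n : ℝ) ^ S.hh
      ≤ (2 : ℝ) ^ ((S.s - 1 + 6 * S.tau) * k) * (h * (2 : ℝ) ^ (S.tau / 2 * k)) :=
        mul_le_mul_of_nonneg_left hmain (by positivity)
    _ = h * ((2 : ℝ) ^ ((S.s - 1 + 6 * S.tau) * k) * (2 : ℝ) ^ (S.tau / 2 * k)) := by ring
    _ = h * (2 : ℝ) ^ ((S.s - 1 + 6.5 * S.tau) * k) := by
        rw [← Real.rpow_add (by norm_num)]; congr 2; ring

end Pool.Agent.Helper14.KS
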