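import Pool.Agent.Helper16.KS.Basic
import Pool.Agent.Helper18.KL.PowA

/-!
# Project KS: weighted counts of rough numbers in windows, conditional on a set of primes
-/

set_option autoImplicit false
open scoped Classical

namespace Pool.Agent.Helper14.KS

open Finset Pool.Agent.Helper16.KS Pool.Agent.Helper18.KL
open Pool.Agent.Helper16.KS.Sys (rough)

/-- number of prime factors with multiplicity -/
def Om (n : ℕ) : ℕ := n.primeFactorsList.length

theorem Om_mul {m n : ℕ} (hm : m ≠ 0) (hn : n ≠ 0) : Om (m * n) = Om m + Om n := by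
  unfold Om
  rw [(Nat.perm_primeFactorsList_mul hm hn).length_eq, List.length_append]

theorem card_divisors_le {n : ℕ} (hn : n ≠ 0) : n.divisors.card ≤ 2 ^ Om n := by
  induction n using Nat.recOnMul with
  | zero => exact absurd rfl hn
  | one => simp [Om]
  | prime p hp => simp [Om, Nat.primeFactorsList_prime hp, hp.divisors, hp.one_lt.ne]
  | mul m n hm hk =>
    have hm0 : m ≠ 0 := left_ne_zero_of_mul hn
    have hn0 : n ≠ 0 := right_ne_zero_of_mul hn
    rw [Nat.divisors_mul, Om_mul hm0 hn0, pow_add]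
    exact (Finset.card_mul_le).trans (Nat.mul_le_mul (hm hm0) (hk hn0))

theorem card_primeFactors_le {n : ℕ} : n.primeFactors.card ≤ Om n := by
  unfold Om Nat.primeFactors
  exact List.toFinset_card_le _

theorem sum_factorization {n : ℕ} : ∑ p ∈ n.primeFactors, n.factorization p = Om n := by
  unfold Om
  rw [← ArithmeticFunction.cardFactors_apply, ArithmeticFunction.cardFactors_eq_sum_factorization]
  rfl

theorem sig_le_of_dvd (A : Finset ℕ) {e n : ℕ} (hn : n ≠ 0) (he : e ∣ n) : sig A e ≤ sig A n := by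
  have he0 : e ≠ 0 := by rintro rfl; exact hn (Nat.eq_zero_of_zero_dvd he)
  unfold sig
  have hsub : e.primeFactors ⊆ n.primeFactors := Nat.primeFactors_mono he hn
  have hv : ∀ p, e.factorization p ≤ n.factorization p :=
    fun p => (Nat.factorization_le_iff_dvd he0 hn).mpr he p
  calc (∏ p ∈ e.primeFactors, if p ∈ A then p ^ e.factorization p else p ^ (e.factorization p - 1))
      ≤ ∏ p ∈ e.primeFactors, if p ∈ A then p ^ n.factorization p
          else p ^ (n.factorization p - 1) := by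
        refine prod_le_prod' fun p hp => ?_
        have hp0 : 0 < p := (Nat.prime_of_mem_primeFactors hp).pos
        have := hv p
        split_ifs
        · exact Nat.pow_le_pow_right hp0 this
        · exact Nat.pow_le_pow_right hp0 (by omega)
    _ ≤ ∏ p ∈ n.primeFactors, if p ∈ A then p ^ n.factorization p
          else p ^ (n.factorization p - 1) := by
        refine prod_le_prod_of_subset_of_one_le' hsub fun p hp _ => ?_
        have hp0 : 0 < p := (Nat.prime_of_mem_primeFactors hp).pos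
        split_ifs
        · exact Nat.one_le_pow _ _ hp0
        · exact Nat.one_le_pow _ _ hp0

/-- MAIN: windows of length `≥ 2^((1/2-3d)k)` in block `k` -/
theorem win_main (S : Sys) (ε : ℝ) (hε : 0 < ε) : ∃ K0 : ℕ, 6 ≤ K0 ∧ ∀ k0 : ℕ, K0 ≤ k0 →
    ∀ k x h : ℕ, (k0 : ℝ) / 2 ≤ k → 2 ^ k ≤ x → x < 2 ^ (k + 1) →
    (2 : ℝ) ^ ((1/2 - 3 * S.d) * k) ≤ h → h ≤ x → ∀ A : Finset ℕ,
    ∑ n ∈ (Ico x (x + h)).filter (fun n => rough k0 n ∧ A ⊆ n.primeFactors),
      (8 : ℝ) ^ Om n * (sig A n : ℝ) ^ S.hh ≤ h * (2 : ℝ) ^ (ε * k) := by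
  have hd := S.d_pos
  obtain ⟨C, hC, hpow⟩ := powA S S.eta S.eta_pos le_rfl
  -- choose `K0`
  obtain ⟨K1, hK1⟩ : ∃ K1 : ℕ, ∀ k : ℕ, K1 ≤ k → 3 * C ≤ (2 : ℝ) ^ (ε / 2 * (k : ℝ)) := by
    have h2 : Filter.Tendsto (fun k : ℕ => (2 : ℝ) ^ (ε / 2 * (k : ℝ))) Filter.atTop
        Filter.atTop := by
      have h3 : Filter.Tendsto (fun k : ℕ => Real.exp (Real.log 2 * (ε / 2) * (k : ℝ)))
          Filter.atTop Filter.atTop := by
        refine Real.tendsto_exp_atTop.comp ?_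
        exact Filter.Tendsto.const_mul_atTop
          (mul_pos (Real.log_pos (by norm_num)) (by positivity)) tendsto_natCast_atTop_atTop
      refine h3.congr fun k => ?_
      rw [Real.rpow_def_of_pos (by norm_num)]
      congr 1; ring
    exact Filter.eventually_atTop.mp (h2.eventually_ge_atTop (3 * C))
  refine ⟨max 6 (max (2 * K1) (⌈(100 : ℝ) / ε⌉₊)), le_max_left _ _, ?_⟩
  intro k0 hk0 k x h hk hx1 hx2 hh hhx A
  simp only [max_le_iff] at hk0
  obtain ⟨hk6, hkK, hkε⟩ := hk0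
  have hk0' : (6 : ℝ) ≤ k0 := by exact_mod_cast hk6
  have hk3 : (3 : ℝ) ≤ k := by linarith
  have hkK1 : K1 ≤ k := by
    have h1 : (2 * K1 : ℝ) ≤ k0 := by exact_mod_cast hkK
    have h2 : (K1 : ℝ) ≤ k := by linarith
    exact_mod_cast h2
  have hkε' : 100 / ε ≤ k0 := (Nat.le_ceil _).trans (by exact_mod_cast hkε)
  have hε2 : 100 / (k0 : ℝ) ≤ ε := by
    rw [div_le_iff₀ (by linarith)]
    rw [div_le_iff₀ hε] at hkε'
    linarith
  have hx0 : 1 ≤ x := le_trans Nat.one_le_two_pow hx1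
  set F := (Ico x (x + h)).filter (fun n => rough k0 n ∧ A ⊆ n.primeFactors) with hF
  -- bounds for `Om`
  set L : ℝ := 5 * ((k : ℝ) + 2) / k0 with hL
  have hL0 : 0 ≤ L := by positivity
  have hOm : ∀ n ∈ F, (Om n : ℝ) ≤ L := by
    intro n hn
    obtain ⟨hn1, hn2, _⟩ := mem_filter.mp hn
    have hn3 := mem_Ico.mp hn1
    have hlt : n < 2 ^ (k + 1 + 1) := by rw [pow_succ]; omega
    have := Sys.rough_omega_le (by omega : 1 ≤ k0) (by omega : n ≠ 0) hn2 hlt
    unfold Om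
    rw [hL]
    push_cast at this
    convert this using 2
    ring
  rcases F.eq_empty_or_nonempty with hFe | ⟨n0, hn0⟩
  · rw [hFe, sum_empty]; positivity
  obtain ⟨hn01, hn02, hn03⟩ := mem_filter.mp hn0
  -- the set `A`
  have hA1 : (A.card : ℝ) ≤ L :=
    le_trans (by exact_mod_cast (card_le_card hn03).trans card_primeFactors_le) (hOm n0 hn0)
  set P0 : ℕ := ⌈(2 : ℝ) ^ ((k0 : ℝ) / 5)⌉₊ with hP0
  have hP0' : (2 : ℝ) ^ ((k0 : ℝ) / 5) ≤ P0 := Nat.le_ceil _
  have hP02 : 2 ≤ P0 := by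
    have h1 : (2 : ℝ) ^ (1 : ℝ) ≤ (2 : ℝ) ^ ((k0 : ℝ) / 5) :=
      Real.rpow_le_rpow_of_exponent_le (by norm_num) (by linarith)
    rw [Real.rpow_one] at h1
    exact_mod_cast h1.trans hP0'
  have hA2 : ∀ p ∈ A, p.Prime ∧ P0 ≤ p := by
    intro p hp
    have hp' := hn03 hp
    have hpp := Nat.prime_of_mem_primeFactors hp'
    exact ⟨hpp, Nat.ceil_le.mpr (hn02 p hpp (Nat.dvd_of_mem_primeFactors hp'))⟩
  have hlog : (Nat.log P0 (2 * x) : ℝ) ≤ L := by
    have h1 : P0 ^ Nat.log P0 (2 * x) ≤ 2 * x := Nat.pow_log_le_self _ (by omega)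
    have h2 : ((2 : ℝ) ^ ((k0 : ℝ) / 5)) ^ (Nat.log P0 (2 * x)) ≤ (2 : ℝ) ^ (k + 2) := by
      calc ((2 : ℝ) ^ ((k0 : ℝ) / 5)) ^ (Nat.log P0 (2 * x))
          ≤ (P0 : ℝ) ^ (Nat.log P0 (2 * x)) := pow_le_pow_left₀ (by positivity) hP0' _
        _ ≤ ((2 * x : ℕ) : ℝ) := by exact_mod_cast h1
        _ ≤ (2 : ℝ) ^ (k + 2) := by
            have : 2 * x ≤ 2 ^ (k + 2) := by rw [pow_succ]; omega
            exact_mod_cast this
    rw [← Real.rpow_natCast, ← Real.rpow_natCast, ← Real.rpow_mul (by norm_num),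
      Real.rpow_le_rpow_left_iff (by norm_num)] at h2
    rw [hL, le_div_iff₀ (by linarith)]
    push_cast at h2
    linarith
  -- the power lemma
  have hmain := hpow x h P0 A 1 hx0 hhx hP02 hA2 le_rfl (by simp)
  simp only [one_dvd, filter_true, Nat.cast_one, Real.one_rpow, mul_one] at hmain
  have hxe : (x : ℝ) ^ (1 / 2 - S.eta) ≤ 2 * h := by
    have heta := S.eta_le'
    have heta0 := S.eta_pos
    have h1 : (x : ℝ) ≤ (2 : ℝ) ^ ((k : ℝ) + 1) := by
      have : (x : ℝ) ≤ (2 : ℝ) ^ (k + 1) := by exact_mod_cast hx2.le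
      rwa [← Real.rpow_natCast, Nat.cast_add, Nat.cast_one] at this
    have h2 : (x : ℝ) ^ (1 / 2 - S.eta) ≤ ((2 : ℝ) ^ ((k : ℝ) + 1)) ^ (1 / 2 - S.eta) :=
      Real.rpow_le_rpow (Nat.cast_nonneg _) h1 (by linarith)
    have h3 : ((2 : ℝ) ^ ((k : ℝ) + 1)) ^ (1 / 2 - S.eta) ≤
        2 * (2 : ℝ) ^ ((1/2 - 3 * S.d) * k) := by
      have e : (2 : ℝ) * (2 : ℝ) ^ ((1/2 - 3 * S.d) * k) =
          (2 : ℝ) ^ (1 + (1/2 - 3 * S.d) * k) := by
        rw [Real.rpow_add (by norm_num), Real.rpow_one]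
      rw [e, ← Real.rpow_mul (by norm_num)]
      refine Real.rpow_le_rpow_of_exponent_le (by norm_num) ?_
      have h4 : 3 * S.d ≤ S.eta := by
        have := S.d_le; have := S.c_le; have := S.c_pos
        linarith
      nlinarith
    linarith
  have h8 : ∀ n ∈ F, (8 : ℝ) ^ Om n * (sig A n : ℝ) ^ S.hh ≤
      (2 : ℝ) ^ (3 * L) * (sig A n : ℝ) ^ S.hh := by
    intro n hn
    refine mul_le_mul_of_nonneg_right ?_ (by positivity)
    have e : (8 : ℝ) ^ Om n = (2 : ℝ) ^ (3 * (Om n : ℝ)) := by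
      rw [Real.rpow_mul (by norm_num), Real.rpow_natCast]
      norm_num
    rw [e]
    exact Real.rpow_le_rpow_of_exponent_le (by norm_num) (by linarith [hOm n hn])
  calc ∑ n ∈ F, (8 : ℝ) ^ Om n * (sig A n : ℝ) ^ S.hh
      ≤ ∑ n ∈ F, (2 : ℝ) ^ (3 * L) * (sig A n : ℝ) ^ S.hh := sum_le_sum h8
    _ = (2 : ℝ) ^ (3 * L) * ∑ n ∈ F, (sig A n : ℝ) ^ S.hh := by rw [mul_sum]
    _ ≤ (2 : ℝ) ^ (3 * L) * ∑ n ∈ Ico x (x + h), (sig A n : ℝ) ^ S.hh := by
        refine mul_le_mul_of_nonneg_left ?_ (by positivity)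
        exact sum_le_sum_of_subset_of_nonneg (filter_subset _ _) fun n _ _ => by positivity
    _ ≤ (2 : ℝ) ^ (3 * L) * (C * 2 ^ (A.card + Nat.log P0 (2 * x)) *
          (h + (x : ℝ) ^ (1 / 2 - S.eta))) := mul_le_mul_of_nonneg_left hmain (by positivity)
    _ ≤ (2 : ℝ) ^ (3 * L) * (C * (2 : ℝ) ^ (2 * L) * (3 * h)) := by
        refine mul_le_mul_of_nonneg_left ?_ (by positivity)
        refine mul_le_mul (mul_le_mul_of_nonneg_left ?_ hC.le) (by linarith) (by positivity)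
          (by positivity)
        rw [← Real.rpow_natCast]
        refine Real.rpow_le_rpow_of_exponent_le (by norm_num) ?_
        push_cast; linarith
    _ = h * ((3 * C) * (2 : ℝ) ^ (5 * L)) := by
        have : (2 : ℝ) ^ (5 * L) = (2 : ℝ) ^ (3 * L) * (2 : ℝ) ^ (2 * L) := by
          rw [← Real.rpow_add (by norm_num)]; congr 1; ring
        rw [this]; ring
    _ ≤ h * ((2 : ℝ) ^ (ε / 2 * (k : ℝ)) * (2 : ℝ) ^ (ε / 2 * (k : ℝ))) := by
        refine mul_le_mul_of_nonneg_left ?_ (Nat.cast_nonneg _)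
        refine mul_le_mul (hK1 k hkK1) ?_ (by positivity) (by positivity)
        refine Real.rpow_le_rpow_of_exponent_le (by norm_num) ?_
        have e : 5 * L = 100 / (k0 : ℝ) * (((k : ℝ) + 2) / 4) := by rw [hL]; ring
        rw [e]
        calc 100 / (k0 : ℝ) * (((k : ℝ) + 2) / 4) ≤ ε * (((k : ℝ) + 2) / 4) :=
              mul_le_mul_of_nonneg_right hε2 (by positivity)
          _ ≤ ε / 2 * k := by nlinarith
    _ = h * (2 : ℝ) ^ (ε * k) := by
        rw [← Real.rpow_add (by norm_num)]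
        congr 2; ring

end Pool.Agent.Helper14.KS
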